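import Pool.Agent.Helper14.TH7.StD

/-!
# Project TH (levels `2·7^n`): solutions of the relation with given leading forms
-/

set_option autoImplicit false

namespace Pool.Agent.Helper67.TH7

open Pool.Agent.Helper14.TH7 Pool.Agent.Helper84.S7
open Pool.Agent.Helper4.S7 (Tm mulL sclL Gd pj S7Pj)

section led

variable {r s : ℕ}

private theorem DfH_eq {q q' : ℕ} (F : Fin 3 → Fn7 q q') : (DfH F : Fn7 q q') =
    F 1 - op7 4 (-3) 2 (-10) (F 1) + (op7 4 (-3) 2 (-10) (F 0) - op7 4 1 2 4 (F 0)) -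
      (F 2 - op7 6 (-1) 2 (-2) (F 2)) := rfl

/-- The master lemma. -/
private theorem master (hl : S7Low0) (hn : S7Nfa) (hj : S7Pj) (hst : TSta) (hw : TLwd)
    (hs : TSur) (d : ℤ) (hd : d < 7 ^ r + 7 ^ s) (T0 T1 T2 : Fn7 (7 ^ r) (7 ^ s))
    (hT0 : T0 ∈ Wd7 d) (hT1 : T1 ∈ Wd7 d) (hT2 : T2 ∈ Wd7 d)
    (h2 : T2 - oW 4 T2 ∈ Wd7 (d - 1))
    (h0 : dX (pj 1 (T0 + T1 - T2)) + (4 : ZMod 7) • dY (pj 5 T1) - (6 : ZMod 7) • dY (pj 5 T2) ∈
      Wd7 (d - 2))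
    (h3 : dX (pj 4 (T0 + T1 - T2)) + (4 : ZMod 7) • dY (pj 2 T1) - (6 : ZMod 7) • dY (pj 2 T2) ∈
      Wd7 (d - 2)) :
    ∃ F : Fin 3 → Fn7 (7 ^ r) (7 ^ s), RelH F ∧ F 0 - T0 ∈ Wd7 (d - 1) ∧ F 1 - T1 ∈ Wd7 (d - 1) ∧
      F 2 - T2 ∈ Wd7 (d - 1) := by
  obtain ⟨-, -, -, -, wmono, -, ldx, ldy, -⟩ := hl r s
  obtain ⟨nW, -⟩ := hn r s
  obtain ⟨p0, -, p6, pw, -, pd, -, -⟩ := hj r s
  have k0 : (((om6 4) ^ 0 : ℤ) : ZMod 7) = 1 := by decide
  have k3 : (((om6 4) ^ 3 : ℤ) : ZMod 7) = 1 := by decide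
  have mo : ∀ {x : Fn7 (7 ^ r) (7 ^ s)} {e e' : ℤ}, x ∈ Wd7 e → e ≤ e' → x ∈ Wd7 e' :=
    fun hx h => wmono _ _ h hx
  -- the defect
  obtain ⟨E, hE⟩ : ∃ E : Fn7 (7 ^ r) (7 ^ s), E = DfH ![T0, T1, T2] := ⟨_, rfl⟩
  obtain ⟨X, hX⟩ : ∃ X : Fn7 (7 ^ r) (7 ^ s), X = dX T2 + (6 : ZMod 7) • dY T2 := ⟨_, rfl⟩
  have hXW : X ∈ Wd7 (d - 1) := by
    rw [hX]
    exact Submodule.add_mem _ (ldx _ _ hT2) (Submodule.smul_mem _ _ (ldy _ _ hT2))
  have hE2 : E + dX T1 + (4 : ZMod 7) • dY T1 + dX T0 + T2 - oW 4 (T2 + X) ∈ Wd7 (d - 2) := by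
    have h := hw r s d ![T0, T1, T2] (by
      intro f
      fin_cases f
      · exact hT0
      · exact hT1
      · exact hT2)
    have e : E + dX T1 + (4 : ZMod 7) • dY T1 + dX T0 + T2 - oW 4 (T2 + X) =
        (DfH ![T0, T1, T2] : Fn7 (7 ^ r) (7 ^ s)) + dX (![T0, T1, T2] 1) +
          (4 : ZMod 7) • dY (![T0, T1, T2] 1) + dX (![T0, T1, T2] 0) + ![T0, T1, T2] 2 -
          oW 4 (![T0, T1, T2] 2 + dX (![T0, T1, T2] 2) + (6 : ZMod 7) • dY (![T0, T1, T2] 2)) := by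
      have e0 : (![T0, T1, T2] : Fin 3 → Fn7 (7 ^ r) (7 ^ s)) 0 = T0 := rfl
      have e1 : (![T0, T1, T2] : Fin 3 → Fn7 (7 ^ r) (7 ^ s)) 1 = T1 := rfl
      have e2 : (![T0, T1, T2] : Fin 3 → Fn7 (7 ^ r) (7 ^ s)) 2 = T2 := rfl
      rw [e0, e1, e2, hE, hX, add_assoc T2]
    rw [e]
    exact h
  have hE1 : E ∈ Wd7 (d - 1) := by
    have e : E = (E + dX T1 + (4 : ZMod 7) • dY T1 + dX T0 + T2 - oW 4 (T2 + X)) - dX T1 -
        (4 : ZMod 7) • dY T1 - dX T0 - (T2 - oW 4 T2) + oW 4 X := by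
      rw [map_add]
      abel
    rw [e]
    refine Submodule.add_mem _ (Submodule.sub_mem _ (Submodule.sub_mem _ (Submodule.sub_mem _
      (Submodule.sub_mem _ (mo hE2 (by linarith)) (ldx _ _ hT1))
      (Submodule.smul_mem _ _ (ldy _ _ hT1))) (ldx _ _ hT0)) h2) ?_
    have := nW 4 _ _ hXW
    exact mo this (by linarith)
  have hpc : ∀ c : ℕ, (((om6 4) ^ c : ℤ) : ZMod 7) = 1 →
      dX (pj (c + 1) (T0 + T1 - T2)) + (4 : ZMod 7) • dY (pj (c + 5) T1) -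
          (6 : ZMod 7) • dY (pj (c + 5) T2) ∈
        (Wd7 (d - 2) : Submodule (ZMod 7) (Fn7 (7 ^ r) (7 ^ s))) →
      pj c E ∈ Wd7 (d - 1 - 1) := by
    intro c hc hx
    have t1 := p0 c _ _ hE2
    have t2 := (pw c 4).1 _ _ (Submodule.add_mem _ hT2 (mo hXW (by linarith : d - 1 ≤ d)))
    have t3 := (pd c).1 _ _ hT0
    have t4 := (pd c).1 _ _ hT1
    have t5 := (pd c).2 _ _ hT1
    have t6 := (pd c).1 _ _ hT2
    have t7 := (pd c).2 _ _ hT2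
    rw [hc] at t2
    have e : pj c E = pj c (E + dX T1 + (4 : ZMod 7) • dY T1 + dX T0 + T2 - oW 4 (T2 + X)) +
        (pj c * oW 4 - (1 : ZMod 7) • pj c : Module.End (ZMod 7) (Fn7 (7 ^ r) (7 ^ s))) (T2 + X) -
        (pj c * dX - dX * pj (c + 1) : Module.End (ZMod 7) (Fn7 (7 ^ r) (7 ^ s))) T0 -
        (pj c * dX - dX * pj (c + 1) : Module.End (ZMod 7) (Fn7 (7 ^ r) (7 ^ s))) T1 -
        (4 : ZMod 7) • (pj c * dY - dY * pj (c + 5) : Module.End (ZMod 7) (Fn7 (7 ^ r) (7 ^ s))) T1 +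
        (pj c * dX - dX * pj (c + 1) : Module.End (ZMod 7) (Fn7 (7 ^ r) (7 ^ s))) T2 +
        (6 : ZMod 7) • (pj c * dY - dY * pj (c + 5) : Module.End (ZMod 7) (Fn7 (7 ^ r) (7 ^ s))) T2 -
        (dX (pj (c + 1) (T0 + T1 - T2)) + (4 : ZMod 7) • dY (pj (c + 5) T1) -
          (6 : ZMod 7) • dY (pj (c + 5) T2)) := by
      rw [hX]
      simp only [LinearMap.sub_apply, Module.End.mul_apply, LinearMap.smul_apply, map_add, map_sub,
        map_smul]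
      module
    rw [e]
    have ed : d - 1 - 1 = d - 2 := by ring
    rw [ed]
    refine Submodule.sub_mem _ (Submodule.add_mem _ (Submodule.add_mem _ (Submodule.sub_mem _
      (Submodule.sub_mem _ (Submodule.sub_mem _ (Submodule.add_mem _ (mo t1 (by linarith))
      (mo t2 (by linarith))) t3) t4) (Submodule.smul_mem _ _ t5)) t6)
      (Submodule.smul_mem _ _ t7)) hx
  have hp0 : pj 0 E ∈ Wd7 (d - 1 - 1) := hpc 0 k0 h0
  have hp3 : pj 3 E ∈ Wd7 (d - 1 - 1) := by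
    apply hpc 3 k3
    have e8 : (pj (3 + 5) : Module.End (ZMod 7) (Fn7 (7 ^ r) (7 ^ s))) = pj 2 := p6 2
    rw [e8]
    exact h3
  obtain ⟨a, ha, hE'⟩ := hst r s (d - 1) E hE1 hp0 hp3
  obtain ⟨G, hG, hGE⟩ := hs r s (d - 1 - 1) _ (by linarith) hE'
  have ed : d - 1 - 1 + 1 = d - 1 := by ring
  rw [ed] at hG
  refine ⟨![T0 - G 0, T1 - G 1, T2 - a - G 2], ?_, ?_, ?_, ?_⟩
  · have h : (DfH ![T0 - G 0, T1 - G 1, T2 - a - G 2] : Fn7 (7 ^ r) (7 ^ s)) = 0 := by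
      have e1 : (DfH ![T0 - G 0, T1 - G 1, T2 - a - G 2] : Fn7 (7 ^ r) (7 ^ s)) =
          (T1 - G 1) - op7 4 (-3) 2 (-10) (T1 - G 1) + (op7 4 (-3) 2 (-10) (T0 - G 0) -
          op7 4 1 2 4 (T0 - G 0)) - ((T2 - a - G 2) - op7 6 (-1) 2 (-2) (T2 - a - G 2)) := rfl
      have e2 : (DfH ![T0, T1, T2] : Fn7 (7 ^ r) (7 ^ s)) =
          T1 - op7 4 (-3) 2 (-10) T1 + (op7 4 (-3) 2 (-10) T0 -
          op7 4 1 2 4 T0) - (T2 - op7 6 (-1) 2 (-2) T2) := rfl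
      have e3 := DfH_eq G
      rw [hGE, hE, e2] at e3
      rw [e1]
      simp only [map_sub]
      have e4 : (T1 - op7 4 (-3) 2 (-10) T1 + (op7 4 (-3) 2 (-10) T0 -
          op7 4 1 2 4 T0) - (T2 - op7 6 (-1) 2 (-2) T2) + (a - op7 6 (-1) 2 (-2) a)) -
          (G 1 - op7 4 (-3) 2 (-10) (G 1) + (op7 4 (-3) 2 (-10) (G 0) - op7 4 1 2 4 (G 0)) -
          (G 2 - op7 6 (-1) 2 (-2) (G 2))) = 0 := sub_eq_zero.mpr e3
      rw [← e4]
      abel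
    exact fun x y => congrFun (congrFun h x) y
  · have e : (![T0 - G 0, T1 - G 1, T2 - a - G 2] : Fin 3 → Fn7 (7 ^ r) (7 ^ s)) 0 - T0 = -G 0 := by
      change T0 - G 0 - T0 = -G 0
      abel
    rw [e]
    exact Submodule.neg_mem _ (hG 0)
  · have e : (![T0 - G 0, T1 - G 1, T2 - a - G 2] : Fin 3 → Fn7 (7 ^ r) (7 ^ s)) 1 - T1 = -G 1 := by
      change T1 - G 1 - T1 = -G 1
      abel
    rw [e]
    exact Submodule.neg_mem _ (hG 1)
  · have e : (![T0 - G 0, T1 - G 1, T2 - a - G 2] : Fin 3 → Fn7 (7 ^ r) (7 ^ s)) 2 - T2 =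
        -a - G 2 := by
      change T2 - a - G 2 - T2 = -a - G 2
      abel
    rw [e]
    exact Submodule.sub_mem _ (Submodule.neg_mem _ ha) (hG 2)

/-- Assembly. -/
private theorem asm (d : ℤ) (T : Fin 3 → Fn7 (7 ^ r) (7 ^ s)) (T0 T1 T2 : Fn7 (7 ^ r) (7 ^ s))
    (e0 : T 0 = T0) (e1 : T 1 = T1) (e2 : T 2 = T2)
    (h : ∃ F : Fin 3 → Fn7 (7 ^ r) (7 ^ s), RelH F ∧ F 0 - T0 ∈ Wd7 (d - 1) ∧
      F 1 - T1 ∈ Wd7 (d - 1) ∧ F 2 - T2 ∈ Wd7 (d - 1)) :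
    ∃ F : Fin 3 → Fn7 (7 ^ r) (7 ^ s), RelH F ∧ ∀ f : Fin 3, F f - T f ∈ Wd7 (d - 1) := by
  obtain ⟨F, hR, f0, f1, f2⟩ := h
  refine ⟨F, hR, fun f => ?_⟩
  fin_cases f
  · change F 0 - T 0 ∈ Wd7 (d - 1)
    rw [e0]
    exact f0
  · change F 1 - T 1 ∈ Wd7 (d - 1)
    rw [e1]
    exact f1
  · change F 2 - T 2 ∈ Wd7 (d - 1)
    rw [e2]
    exact f2

end led

theorem hLed (_ht : S7Trm) (hl : S7Low0) (hn : S7Nfa) (hp : S7Pj) (hb : S7Bb) (hs : TSta)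
    (hw : TLwd) (hu : TSur) : TLed := by
  intro r s c i j hc hi1 hi2
  obtain ⟨-, -, -, -, wmono, -, ldx, ldy, -⟩ := hl r s
  obtain ⟨nW, -⟩ := hn r s
  obtain ⟨b1, b2, b3, -⟩ := hb r s
  obtain ⟨-, -, -, pw, -, -, -, pc⟩ := hp r s
  have hA : aaH c + i + 7 * j < 7 ^ r := by
    have h : aaH c ≤ aeH c := by
      unfold aaH aeH
      interval_cases c <;> simp
    omega
  obtain ⟨A, hAe⟩ : ∃ A : ℕ, A = aaH c + i + 7 * j := ⟨_, rfl⟩
  obtain ⟨B, hBe⟩ : ∃ B : ℕ, B = abH c + i + j := ⟨_, rfl⟩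
  rw [← hAe] at hA
  rw [← hBe] at hi2
  rw [← hAe, ← hBe]
  have hdd : ((dgH c i j : ℕ) : ℤ) = (A : ℤ) + B := by
    rw [hAe, hBe]
    unfold dgH
    push_cast
    ring
  rw [hdd]
  obtain ⟨d, hd⟩ : ∃ d : ℤ, d = (A : ℤ) + B := ⟨_, rfl⟩
  rw [← hd]
  have hdlt : d < 7 ^ r + 7 ^ s := by
    have h5 : (A : ℤ) < 7 ^ r := by exact_mod_cast hA
    have h6 : (B : ℤ) < 7 ^ s := by exact_mod_cast hi2
    rw [hd]
    linarith
  obtain ⟨P, hP⟩ : ∃ P : Fn7 (7 ^ r) (7 ^ s), P = bb7 A B := ⟨_, rfl⟩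
  have hPW : P ∈ Wd7 d := by
    rw [hP, hd]
    exact b1 _ _ hA hi2
  have n1 : ∀ c' : ℕ, ((A : ℤ) - B - (c' : ℤ)) % 6 ≠ 0 → pj c' P ∈ Wd7 (d - 1) := by
    intro c' hc'
    have h := pc c' A B hA hi2
    rw [if_neg hc', sub_zero, ← hP, ← hd] at h
    exact h
  have n0 : ∀ c' : ℕ, ((A : ℤ) - B - (c' : ℤ)) % 6 = 0 → pj c' P - P ∈ Wd7 (d - 1) := by
    intro c' hc'
    have h := pc c' A B hA hi2
    rw [if_pos hc', ← hP, ← hd] at h
    exact h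
  have hd2 : ∀ (x : Fn7 (7 ^ r) (7 ^ s)), x ∈ Wd7 (d - 1) → dX x ∈ Wd7 (d - 2) ∧ dY x ∈ Wd7 (d - 2) := by
    intro x hx
    have e : d - 2 = d - 1 - 1 := by ring
    rw [e]
    exact ⟨ldx _ _ hx, ldy _ _ hx⟩
  have z0 : (0 : Fn7 (7 ^ r) (7 ^ s)) ∈ Wd7 d := Submodule.zero_mem _
  have z2 : (0 : Fn7 (7 ^ r) (7 ^ s)) - oW 4 (0 : Fn7 (7 ^ r) (7 ^ s)) ∈ Wd7 (d - 1) := by
    rw [map_zero, sub_zero]
    exact Submodule.zero_mem _
  interval_cases c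
  · -- `c = 0`
    have q2 : abH 0 = 0 := rfl
    have q3 : aaH 0 = 0 := rfl
    rw [q3] at hAe
    rw [q2] at hBe
    apply asm d _ P 0 0 (by rw [hP]; rfl) rfl rfl
    apply master hl hn hp hs hw hu d hdlt P 0 0 hPW z0 z0 z2
    · rw [add_zero, sub_zero]
      simp only [map_zero, smul_zero, add_zero, sub_zero]
      exact (hd2 _ (n1 1 (by omega))).1
    · rw [add_zero, sub_zero]
      simp only [map_zero, smul_zero, add_zero, sub_zero]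
      exact (hd2 _ (n1 4 (by omega))).1
  · -- `c = 1`
    have q2 : abH 1 = 0 := rfl
    have q3 : aaH 1 = 0 := rfl
    rw [q3] at hAe
    rw [q2] at hBe
    apply asm d _ 0 P 0 rfl (by rw [hP]; rfl) rfl
    apply master hl hn hp hs hw hu d hdlt 0 P 0 z0 hPW z0 z2
    · rw [zero_add, sub_zero]
      simp only [map_zero, smul_zero, sub_zero]
      exact Submodule.add_mem _ (hd2 _ (n1 1 (by omega))).1
        (Submodule.smul_mem _ _ (hd2 _ (n1 5 (by omega))).2)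
    · rw [zero_add, sub_zero]
      simp only [map_zero, smul_zero, sub_zero]
      exact Submodule.add_mem _ (hd2 _ (n1 4 (by omega))).1
        (Submodule.smul_mem _ _ (hd2 _ (n1 2 (by omega))).2)
  · -- `c = 2`
    have q2 : abH 2 = 0 := rfl
    have q3 : aaH 2 = 2 := rfl
    rw [q3] at hAe
    rw [q2] at hBe
    apply asm d _ P 0 0 (by rw [hP]; rfl) rfl rfl
    apply master hl hn hp hs hw hu d hdlt P 0 0 hPW z0 z0 z2
    · rw [add_zero, sub_zero]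
      simp only [map_zero, smul_zero, add_zero, sub_zero]
      exact (hd2 _ (n1 1 (by omega))).1
    · rw [add_zero, sub_zero]
      simp only [map_zero, smul_zero, add_zero, sub_zero]
      exact (hd2 _ (n1 4 (by omega))).1
  · -- `c = 3`
    have q2 : abH 3 = 0 := rfl
    have q3 : aaH 3 = 3 := rfl
    rw [q3] at hAe
    rw [q2] at hBe
    have k3 : (((om6 4) ^ 3 : ℤ) : ZMod 7) = 1 := by decide
    have hW : P - oW 4 P ∈ Wd7 (d - 1) := by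
      have m1 := n0 3 (by omega)
      have m2 := nW 4 _ _ m1
      have m3 := (pw 3 4).2 _ _ hPW
      rw [k3] at m3
      have e : P - oW 4 P = oW 4 (pj 3 P - P) - (pj 3 P - P) -
          (oW 4 * pj 3 - (1 : ZMod 7) • pj 3 : Module.End (ZMod 7) (Fn7 (7 ^ r) (7 ^ s))) P := by
        simp only [LinearMap.sub_apply, Module.End.mul_apply, LinearMap.smul_apply, map_sub]
        module
      rw [e]
      exact Submodule.sub_mem _ (Submodule.sub_mem _ (wmono _ _ (by linarith) m2) m1)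
        (wmono _ _ (by linarith) m3)
    apply asm d _ 0 0 P rfl rfl (by rw [hP]; rfl)
    apply master hl hn hp hs hw hu d hdlt 0 0 P z0 z0 hPW hW
    · have e : dX (pj 1 ((0 : Fn7 (7 ^ r) (7 ^ s)) + 0 - P)) + (4 : ZMod 7) • dY (pj 5 (0 : Fn7 (7 ^ r) (7 ^ s))) -
          (6 : ZMod 7) • dY (pj 5 P) = -dX (pj 1 P) - (6 : ZMod 7) • dY (pj 5 P) := by
        simp only [map_zero, smul_zero, add_zero, zero_sub, map_neg]
      rw [e]
      exact Submodule.sub_mem _ (Submodule.neg_mem _ (hd2 _ (n1 1 (by omega))).1)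
        (Submodule.smul_mem _ _ (hd2 _ (n1 5 (by omega))).2)
    · have e : dX (pj 4 ((0 : Fn7 (7 ^ r) (7 ^ s)) + 0 - P)) + (4 : ZMod 7) • dY (pj 2 (0 : Fn7 (7 ^ r) (7 ^ s))) -
          (6 : ZMod 7) • dY (pj 2 P) = -dX (pj 4 P) - (6 : ZMod 7) • dY (pj 2 P) := by
        simp only [map_zero, smul_zero, add_zero, zero_sub, map_neg]
      rw [e]
      exact Submodule.sub_mem _ (Submodule.neg_mem _ (hd2 _ (n1 4 (by omega))).1)
        (Submodule.smul_mem _ _ (hd2 _ (n1 2 (by omega))).2)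
  · -- `c = 4`
    have q1 : aeH 4 = 4 := rfl
    have q2 : abH 4 = 1 := rfl
    have q3 : aaH 4 = 3 := rfl
    rw [q1] at hi1
    rw [q3] at hAe
    rw [q2] at hBe
    have hA1 : A + 1 < 7 ^ r := by omega
    have hB1 : B - 1 < 7 ^ s := by omega
    obtain ⟨R, hR⟩ : ∃ R : Fn7 (7 ^ r) (7 ^ s), R = bb7 (A + 1) (B - 1) := ⟨_, rfl⟩
    have ed : ((A + 1 : ℕ) : ℤ) + ((B - 1 : ℕ) : ℤ) = d := by
      rw [hd]
      omega
    have hRW : R ∈ Wd7 d := by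
      rw [hR, ← ed]
      exact b1 _ _ hA1 hB1
    have m1 : ∀ c' : ℕ, (((A + 1 : ℕ) : ℤ) - ((B - 1 : ℕ) : ℤ) - (c' : ℤ)) % 6 ≠ 0 →
        pj c' R ∈ Wd7 (d - 1) := by
      intro c' hc'
      have h := pc c' (A + 1) (B - 1) hA1 hB1
      rw [if_neg hc', sub_zero, ← hR, ed] at h
      exact h
    have m0 : pj 4 R - R ∈ Wd7 (d - 1) := by
      have h := pc 4 (A + 1) (B - 1) hA1 hB1
      rw [if_pos (by omega), ← hR, ed] at h
      exact h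
    have dR : dX R = dY P := by
      have hB2 : B = B - 1 + 1 := by omega
      have e1 := b2 A (B - 1) hA1 hB1
      have e2 := b3 A (B - 1) hA (by omega)
      rw [← hB2] at e2
      rw [hR, hP, e1, e2]
    have h7 : (7 : ZMod 7) = 0 := by decide
    apply asm d _ ((2 : ZMod 7) • P + (3 : ZMod 7) • R) P 0 (by rw [hP, hR]; rfl)
      (by rw [hP]; rfl) rfl
    apply master hl hn hp hs hw hu d hdlt _ P 0
      (Submodule.add_mem _ (Submodule.smul_mem _ _ hPW) (Submodule.smul_mem _ _ hRW)) hPW z0 z2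
    · have e : dX (pj 1 ((2 : ZMod 7) • P + (3 : ZMod 7) • R + P - (0 : Fn7 (7 ^ r) (7 ^ s)))) +
          (4 : ZMod 7) • dY (pj 5 P) - (6 : ZMod 7) • dY (pj 5 (0 : Fn7 (7 ^ r) (7 ^ s))) =
          (3 : ZMod 7) • dX (pj 1 P) + (3 : ZMod 7) • dX (pj 1 R) + (4 : ZMod 7) • dY (pj 5 P) := by
        simp only [map_zero, smul_zero, sub_zero, map_add, map_smul]
        module
      rw [e]
      exact Submodule.add_mem _ (Submodule.add_mem _
        (Submodule.smul_mem _ _ (hd2 _ (n1 1 (by omega))).1)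
        (Submodule.smul_mem _ _ (hd2 _ (m1 1 (by omega))).1))
        (Submodule.smul_mem _ _ (hd2 _ (n1 5 (by omega))).2)
    · have e : dX (pj 4 ((2 : ZMod 7) • P + (3 : ZMod 7) • R + P - (0 : Fn7 (7 ^ r) (7 ^ s)))) +
          (4 : ZMod 7) • dY (pj 2 P) - (6 : ZMod 7) • dY (pj 2 (0 : Fn7 (7 ^ r) (7 ^ s))) =
          (3 : ZMod 7) • dX (pj 4 P) + (3 : ZMod 7) • dX (pj 4 R - R) +
            (4 : ZMod 7) • dY (pj 2 P - P) + (7 : ZMod 7) • dY P := by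
        simp only [map_zero, smul_zero, sub_zero, map_add, map_sub, map_smul, dR]
        module
      rw [e, h7, zero_smul, add_zero]
      exact Submodule.add_mem _ (Submodule.add_mem _
        (Submodule.smul_mem _ _ (hd2 _ (n1 4 (by omega))).1)
        (Submodule.smul_mem _ _ (hd2 _ m0).1))
        (Submodule.smul_mem _ _ (hd2 _ (n0 2 (by omega))).2)
  · -- `c = 5`
    have q2 : abH 5 = 1 := rfl
    have q3 : aaH 5 = 5 := rfl
    rw [q3] at hAe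
    rw [q2] at hBe
    apply asm d _ (-P) P 0 (by rw [hP]; rfl) (by rw [hP]; rfl) rfl
    apply master hl hn hp hs hw hu d hdlt (-P) P 0 (Submodule.neg_mem _ hPW) hPW z0 z2
    · have e : dX (pj 1 (-P + P - (0 : Fn7 (7 ^ r) (7 ^ s)))) +
          (4 : ZMod 7) • dY (pj 5 P) - (6 : ZMod 7) • dY (pj 5 (0 : Fn7 (7 ^ r) (7 ^ s))) =
          (4 : ZMod 7) • dY (pj 5 P) := by
        simp only [map_zero, smul_zero, sub_zero, neg_add_cancel, zero_add]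
      rw [e]
      exact Submodule.smul_mem _ _ (hd2 _ (n1 5 (by omega))).2
    · have e : dX (pj 4 (-P + P - (0 : Fn7 (7 ^ r) (7 ^ s)))) +
          (4 : ZMod 7) • dY (pj 2 P) - (6 : ZMod 7) • dY (pj 2 (0 : Fn7 (7 ^ r) (7 ^ s))) =
          (4 : ZMod 7) • dY (pj 2 P) := by
        simp only [map_zero, smul_zero, sub_zero, neg_add_cancel, zero_add]
      rw [e]
      exact Submodule.smul_mem _ _ (hd2 _ (n1 2 (by omega))).2

end Pool.Agent.Helper67.TH7
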